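import Pool.Agent.Helper60K9.LF.Adic

/-!
# Abelian varieties: the comparison of the definitions
-/

set_option autoImplicit false

open CategoryTheory Polynomial

universe u

namespace Pool.Agent.Helper60K9.LF

open Pool.Agent Pool.Agent.H914 Pool.Agent.H914.VarClass Pool.Agent.H914.VarClass.Obj
  Pool.Agent.H914.WeilCohomology Pool.Agent.Helper7K9.OL Pool.Agent.Helper11K9.Dens
  Pool.Agent.Helper60K9.EL

variable {k : Type u} [Field k] {𝒱 : VarClass k} {ops : CycleOps 𝒱} {p : ℕ}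

lemma scl_eq {W : WeilCohomology.{u, 0} ops} {X : 𝒱.Obj} (c n : ℕ) (x : W.H X) :
    scl W c n x = (c : W.K) ^ n • x := rfl

lemma ann_iff {W : WeilCohomology.{u, 0} ops} {X : 𝒱.Obj} (f : X ⟶ X) (P : ℚ[X]) (x : W.H X) :
    Ann (rat W) (pb W f) P x ↔
      aeval (W.map f).toLinearMap (P.map (algebraMap ℚ W.K)) x = 0 := by
  unfold Ann
  rw [Polynomial.sum_over_range _ (fun n => by
    show ((0 : ℚ) : W.K) • _ = _
    rw [Rat.cast_zero, zero_smul])]
  rw [aeval_eq_sum_range, LinearMap.sum_apply]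
  have h2 : ((P.map (algebraMap ℚ W.K)).natDegree) = P.natDegree := Polynomial.natDegree_map _
  rw [h2]
  have e : ∀ n : ℕ, ((P.map (algebraMap ℚ W.K)).coeff n • ((W.map f).toLinearMap ^ n)) x =
      rat W (P.coeff n) ((pb W f)^[n] x) := by
    intro n
    rw [LinearMap.smul_apply, Polynomial.coeff_map, Module.End.pow_apply, eq_ratCast]
    rfl
  rw [Finset.sum_congr rfl fun n _ => e n]

lemma hard_conv {W : WeilCohomology.{u, 0} ops} {X : 𝒱.Obj} {D : X.Cycles}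
    (h : Hard (Deg W) X.dim (lef W D)) : HardLefschetz W X D := by
  intro i hi
  have e : ∀ (n : ℕ) (a : W.H X), (LinearMap.mulLeft W.K (W.cl X D) ^ n) a = lef W D n a := by
    intro n a
    rw [LinearMap.pow_mulLeft]
    rfl
  obtain ⟨h1, h2⟩ := h i hi
  refine ⟨fun a ha h0 => h1 a ha ?_, fun b hb => ?_⟩
  · rw [← e]; exact h0
  · obtain ⟨a, ha, hab⟩ := h2 b hb
    exact ⟨a, ha, by rw [e]; exact hab⟩

lemma spanned_conv {W : WeilCohomology.{u, 0} ops} {X : 𝒱.Obj} {F : X ⟶ X}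
    (N : Submodule W.K (W.H X)) {T : W.H X → Prop} (hT : ∀ x, T x ↔ x ∈ N)
    (h : Spanned W.K T (pb W F) (act0 W (X := X))) :
    R908.CommutantSpannedOn (W.map F).toLinearMap N (R908.cycOps W X) := by
  intro φ h1 h2
  obtain ⟨n, c, z, hz⟩ := h φ φ.isLinear (fun x hx => (hT _).2 (h1 x ((hT x).1 hx)))
    (fun x hx => h2 x ((hT x).1 hx))
  refine ⟨∑ j, c j • W.corr (W.cl (X.prod X) (z j).1), ?_, fun x hx => ?_⟩
  · exact Submodule.sum_mem _ fun j _ => Submodule.smul_mem _ _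
      (Submodule.subset_span ⟨(z j).1, (z j).2, rfl⟩)
  · rw [LinearMap.sum_apply, hz x ((hT x).2 hx)]
    rfl

theorem abelian_conv (S : Adic ops p) (hp : 0 < p) (ℓ : ℕ) {V : 𝒱.Obj} {m : V.prod V ⟶ V}
    {D : V.Cycles} {P : ℚ[X]} (hP : Squarefree P)
    (h : IsAbelian (S.W ℓ) V (S.Fr V) p (S.e V) m D P) :
    R908.IsAbelianOverFinite (S.sys hp ℓ) V m D ∧
      KillsOn (R908.frobAll (S.sys hp ℓ) V) ((S.W ℓ).gr V 1) P := by
  have hk : KillsOn (R908.frobAll (S.sys hp ℓ) V) ((S.W ℓ).gr V 1) P := fun x hx =>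
    (ann_iff _ _ _).1 (h.kills x hx)
  refine ⟨⟨⟨h.add, h.gen⟩, h.divisor, ?_, hard_conv h.hard, ?_, ?_⟩, hk⟩
  · show (S.W ℓ).map (S.Fr V) ((S.W ℓ).cl V D) = ((p ^ S.e V : ℕ) : (S.W ℓ).K) • _
    have := h.scaled
    rw [scl_eq, ← Nat.cast_pow] at this
    exact this
  · refine ⟨P.map (algebraMap ℚ (S.W ℓ).K), ?_, hk⟩
    exact (PerfectField.separable_iff_squarefree.2 hP).map.squarefree
  · exact spanned_conv _ (fun x => Iff.rfl) h.tate

end Pool.Agent.Helper60K9.LF
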