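import Pool.Agent.Helper60K9.LF.Defs
import Pool.Agent.Helper11K9.Dens.MainDefs
import Pool.Agent.Helper11K9.Dens.AdicDefs

/-!
# The comparison with the systems of `ℓ`-adic cohomology theories
-/

set_option autoImplicit false

open CategoryTheory Polynomial

universe u

namespace Pool.Agent.Helper60K9.LF

open Pool.Agent Pool.Agent.H914 Pool.Agent.H914.VarClass Pool.Agent.H914.VarClass.Obj
  Pool.Agent.H914.WeilCohomology Pool.Agent.Helper7K9.OL Pool.Agent.Helper11K9.Dens
  Pool.Agent.Helper60K9.EL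

variable {k : Type u} [Field k] {𝒱 : VarClass k} {ops : CycleOps 𝒱} {p : ℕ}

lemma iter_eq {X : 𝒱.Obj} (f : X ⟶ X) (n : ℕ) : (· ≫ f)^[n] (𝟙 X) = W534.iter f n := by
  induction n with
  | zero => rfl
  | succ n ih =>
    rw [Function.iterate_succ_apply', ih]
    rfl

lemma map_iter (W : WeilCohomology.{u, 0} ops) {X : 𝒱.Obj} (f : X ⟶ X) (n : ℕ) (x : W.H X) :
    W.map (W534.iter f n) x = (pb W f)^[n] x := by
  induction n generalizing x with
  | zero => exact W.map_id X x
  | succ n ih =>
    show W.map (W534.iter f n ≫ f) x = _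
    rw [W.map_comp, ih, Function.iterate_succ_apply]
    rfl

/-- The system of Frobenius endomorphisms. -/
noncomputable def Adic.sys (S : Adic ops p) (hp : 0 < p) (ℓ : ℕ) : W534.FrobSystem (S.W ℓ) p where
  Fr := S.Fr
  e := S.e
  p_pos := hp
  e_pos := S.e_pos
  comm := fun {X Y} f => by
    obtain ⟨a, b, h1, h2, h3⟩ := S.comm X Y f
    refine ⟨a, b, h1, h2, ?_⟩
    rw [← iter_eq, ← iter_eq]
    exact h3
  cyc := fun {X j z} hz => by
    obtain ⟨s, h1, h2⟩ := S.cyc ℓ X j z hz
    refine ⟨s, h1, ?_⟩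
    rw [map_iter]
    exact h2
  deg := fun {X c} hc => S.deg ℓ X c hc

/-- The system of `ℓ`-adic cohomology theories. -/
noncomputable def Adic.toSystem (S : Adic ops p) (hp : 0 < p) : AdicSystem ops p where
  W := S.W
  coeff := S.coeff
  Fr := S.Fr
  e := S.e
  Φ := S.sys hp
  Fr_eq := fun _ _ => rfl
  e_eq := fun _ _ => rfl

lemma isProductOf_iff {R : Set 𝒱.Obj} {U : 𝒱.Obj} : LF.IsProductOf R U ↔ H914.IsProductOf R U := by
  constructor
  · intro h
    induction h with
    | base h => exact .base h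
    | prod _ _ h1 h2 => exact .prod h1 h2
  · intro h
    induction h with
    | base h => exact .base h
    | prod _ _ h1 h2 => exact .prod h1 h2

/-- A class of degree `2 n` with trace zero is zero. -/
lemma eq_zero_of_tr {W : WeilCohomology.{u, 0} ops} {X : 𝒱.Obj} {y : W.H X}
    (hy : y ∈ W.gr X (2 * X.dim)) (h : W.tr X y = 0) : y = 0 := by
  classical
  refine W.nondeg y fun b => ?_
  have hb : b ∈ (⨆ i, W.gr X i) := by
    rw [(W.isInternal X).submodule_iSup_eq_top]
    trivial
  refine Submodule.iSup_induction (W.gr X) (motive := fun b => W.tr X (y * b) = 0) hb ?_ ?_ ?_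
  · intro i c hc
    by_cases hi : i = 0
    · subst hi
      rw [W.gr_zero] at hc
      obtain ⟨a, rfl⟩ := Submodule.mem_span_singleton.1 hc
      rw [mul_smul_comm, mul_one, map_smul, h, smul_zero]
    · have h1 := W.mul_mem hy hc
      rw [W.gr_eq_bot X _ (by omega)] at h1
      rw [(Submodule.mem_bot _).1 h1, map_zero]
  · rw [mul_zero, map_zero]
  · intro c d hc hd
    rw [mul_add, map_add, hc, hd, add_zero]

end Pool.Agent.Helper60K9.LF
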