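import Pool.Agent.Helper7K9.OL.Defs

/-!
# Strata with Frobenius: definitions
-/

set_option autoImplicit false

open CategoryTheory Polynomial

universe u

namespace Pool.Agent.Helper60K9.EL

open Pool.Agent.H914 Pool.Agent.H914.VarClass Pool.Agent.H914.VarClass.Obj
  Pool.Agent.H914.WeilCohomology Pool.Agent.Helper7K9.OL

variable {k : Type u} [Field k] {𝒱 : VarClass k} {ops : CycleOps 𝒱}

/-- The action of the geometric Frobenius of the residue field on the strata over its algebraic
closure: it permutes the connected components `Y p s` of the `(p + 1)`-fold intersections, and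
`fr p s` is the relative Frobenius morphism `Y p s ⟶ Y p (perm p s)`; `sg p s` is the sign of the
permutation of the components of the closed fibre which contain `Y p s` with respect to their
numbering (`0` for even, `1` for odd). -/
structure FrobAction {d : ℕ} (D : Strata 𝒱 d) where
  perm : ∀ p, Equiv.Perm (D.S p)
  fr : ∀ p s, D.Y p s ⟶ D.Y p (perm p s)
  sg : ∀ p, D.S p → ℕ

section Terms

variable (W : WeilCohomology.{u, 0} ops) {X Y : 𝒱.Obj}

/-- Multiplication of a class with `c ^ n`. -/
noncomputable def scl (c n : ℕ) (x : W.H X) : W.H X := (c : W.K) ^ n • x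

/-- Multiplication of a class with a rational number. -/
noncomputable def rat (c : ℚ) (x : W.H X) : W.H X := (c : W.K) • x

/-- The action of a correspondence. -/
noncomputable def crr (z : (X.prod Y).Cycles) (x : W.H X) : W.H Y :=
  pf W (snd X Y) (cls W z * pb W (fst X Y) x)

variable {d : ℕ} (D : Strata 𝒱 d) (A : FrobAction D)

/-- The families of classes on the `(p + 1)`-fold intersections, for all `p ≥ 0`. -/
abbrev Tot : Type := ∀ p : ℕ, Coh W D p

/-- The restriction `ρ` on the families. -/
noncomputable def resT (f : Tot W D) : Tot W D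
  | 0 => 0
  | p + 1 => resF W D p (f p)

/-- The geometric Frobenius on the cohomology of the `(p + 1)`-fold intersections. -/
noncomputable def phiF (p : ℕ) (x : Coh W D p) : Coh W D p := fun s =>
  sgn W (A.sg p s) (pb W (A.fr p s) (x (A.perm p s)))

end Terms

/-- Cycles (of all codimensions `q`) on the products of two strata. -/
structure CycMat {d : ℕ} (D : Strata 𝒱 d) where
  z : ∀ (x y : Σ p, D.S p) (_ : ℕ), ((D.Y x.1 x.2).prod (D.Y y.1 y.2)).Cycles
  isCyc : ∀ x y q, ((D.Y x.1 x.2).prod (D.Y y.1 y.2)).IsCyc q (z x y q)

/-- The part of the sum in `CycMat.act` with a given `p'`. -/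
noncomputable def CycMat.part {d : ℕ} {D : Strata 𝒱 d} (Z : CycMat D)
    (W : WeilCohomology.{u, 0} ops) (f : Tot W D) (p : ℕ) (s : D.S p) (p' : ℕ) :
    W.H (D.Y p s) :=
  ∑ s' : D.S p', ∑ q ∈ Finset.range (2 * d + 1), crr W (Z.z ⟨p', s'⟩ ⟨p, s⟩ q) (f p' s')

/-- The action on the families of classes of the matrix of correspondences given by cycles on the
products of two strata. -/
noncomputable def CycMat.act {d : ℕ} {D : Strata 𝒱 d} (Z : CycMat D)
    (W : WeilCohomology.{u, 0} ops) (f : Tot W D) : Tot W D := fun p s =>
  ∑ p' ∈ Finset.range (d + 1), Z.part W f p s p'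

end Pool.Agent.Helper60K9.EL
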