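import Pool.Agent.Helper60K9.LF.Adic
import Pool.Agent.Helper60K9.EL.Stm2

/-!
# Comparison with the definitions used in the proofs
-/

set_option autoImplicit false

open CategoryTheory Polynomial

universe u

namespace Pool.Agent.Helper60K9.LF

open Pool.Agent Pool.Agent.H914 Pool.Agent.H914.VarClass Pool.Agent.H914.VarClass.Obj
  Pool.Agent.H914.WeilCohomology Pool.Agent.Helper7K9.OL Pool.Agent.Helper11K9.Dens
  Pool.Agent.Helper60K9.EL

variable {k : Type u} [Field k] {𝒱 : VarClass k} {ops : CycleOps 𝒱} {p : ℕ}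

lemma isWeil_of {W : WeilCohomology.{u, 0} ops} {d : ℕ} {D : Strata 𝒱 d}
    {A : FrobAction D} {P : ℕ → ℚ[X]} (h : LF.FrobKilled W D A P) : IsWeil W D A P := by
  intro p j x hx
  have h0 : ∀ s, Deg W j (x s) := fun s => hx s (Set.mem_univ s)
  have h1 := h p j x h0
  unfold Ann at h1
  rw [Polynomial.sum_over_range _ (fun n => by
    funext s
    show rat W 0 _ = 0
    unfold rat
    rw [Rat.cast_zero, zero_smul])] at h1
  rw [aeval_eq_sum_range, LinearMap.sum_apply]
  have h2 : (((P j).map (algebraMap ℚ W.K)).natDegree) = (P j).natDegree :=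
    Polynomial.natDegree_map _
  rw [h2]
  refine (Finset.sum_congr rfl fun n _ => ?_).trans h1
  rw [LinearMap.smul_apply, Polynomial.coeff_map]
  have h3 : ∀ n : ℕ, (phi W D A p ^ n) x = (phiF W D A p)^[n] x := by
    intro n
    rw [Module.End.pow_apply]
    rfl
  rw [h3]
  funext s
  show (algebraMap ℚ W.K) ((P j).coeff n) • (phiF W D A p)^[n] x s = _
  rw [eq_ratCast]
  rfl

section

variable (W : WeilCohomology.{u, 0} ops) {d : ℕ} (D : Strata 𝒱 d) (A : FrobAction D)

lemma inE_iff (i b : ℕ) (f : Tot W D) : InE W D i b f ↔ InE1 W D i b f := by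
  refine forall_congr' fun p => forall_congr' fun s => ?_
  refine and_congr Iff.rfl (or_congr Iff.rfl ?_)
  constructor
  · rintro ⟨h1, h2, h3, h4⟩
    refine ⟨h1, by omega, ?_⟩
    rw [Int.even_iff]
    rw [Nat.even_iff] at h4
    omega
  · rintro ⟨h1, h2, h3⟩
    rw [Int.even_iff] at h3
    refine ⟨h1, by omega, by omega, ?_⟩
    rw [Nat.even_iff]
    omega

lemma dif_eq (i b : ℕ) (f : Tot W D) : LF.dif W D i b f = EL.dif W D i b f := by
  funext p s
  show (if b ≤ i + 1 + p ∧ i + 1 ≤ b + p then _ else _) = (if _ then _ else _)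
  by_cases h : b ≤ i + 1 + p ∧ i + 1 ≤ b + p
  · rw [if_pos h, if_pos (by omega)]
  · rw [if_neg h, if_neg (by omega)]

lemma cut_eq (i b : ℕ) (f : Tot W D) : cut W D (i + 2) b f = mon W D i b f := by
  funext p s
  show (if b ≤ i + 2 + p ∧ i + 2 ≤ b + p then _ else _) = (if _ then _ else _)
  by_cases h : b ≤ i + 2 + p ∧ i + 2 ≤ b + p
  · rw [if_pos h, if_pos (by omega)]
  · rw [if_neg h, if_neg (by omega)]

lemma inZ_iff (i b : ℕ) (f : Tot W D) :
    LF.InZ W D i b f ↔ InE1 W D i b f ∧ EL.dif W D i b f = 0 := by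
  refine and_congr (inE_iff W D i b f) ?_
  rw [← dif_eq]
  constructor
  · intro h
    funext p s
    exact h p s
  · intro h p s
    exact congrFun (congrFun h p) s

lemma inB_iff (i b : ℕ) (f : Tot W D) : LF.InB W D i b f ↔ EL.InB W D i b f := by
  refine exists_congr fun g => ?_
  rw [inE_iff, dif_eq]

lemma frobE_eq' (r i b : ℕ) (f : Tot W D) : LF.frobE W D A r i b f = frobT W D A r i b f := by
  funext p s
  show ((r : W.K) ^ ((p + b - i) / 2)) • (phiF W D A p (f p) s) = ((r : W.K) ^ _) • _
  have h : (((p : ℤ) + b - i) / 2).toNat = (p + b - i) / 2 := by omega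
  rw [h]
  rfl

end

variable {W : WeilCohomology.{u, 0} ops} {d : ℕ} {D : Strata 𝒱 d} {A : FrobAction D}
  {r i : ℕ} {Z : ℕ → CycMat D} {G : Gal}

/-- The form of a realisation used in the proofs. -/
noncomputable def toReal (M : LF.Realisation (rz W D A r i Z) r i G) :
    letI := G.normal
    Realization W D A r i Z G.Gam G.I G.frob :=
  letI := G.normal
  letI : Module W.K M.V := M.modV
  letI : Module W.K M.H := M.modH
  { V := M.V
    finV := M.finV
    ρ :=
      { toFun := fun g => (M.act_lin g).mk' _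
        map_one' := LinearMap.ext fun v => M.act_one v
        map_mul' := fun g g' => LinearMap.ext fun v => M.act_mul g g' v }
    H := M.H
    finH := M.finH
    inj := M.inj_lin.mk' _
    injective := (injective_iff_map_eq_zero _).2 M.injective
    F := M.F_lin.mk' _
    N := M.N_lin.mk' _
    E := M.E_lin.mk' _
    inj_frob := M.inj_frob
    inv_iff := M.inv_iff
    N_F := fun h => by
      show M.N (M.F h) = (r : W.K) • M.F (M.N h)
      rw [M.N_F, Nat.cast_smul_eq_nsmul]
    E_E := M.E_E
    E_F := M.E_F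
    E_N := M.E_N
    fil := fun b =>
      { carrier := {h | M.fil b h}
        add_mem' := fun ha hb => M.fil_add b _ _ ha hb
        zero_mem' := M.fil_nil b
        smul_mem' := fun c x hx => M.fil_smul b c x hx }
    fil_mono := monotone_nat_of_le_succ fun b h hh => M.fil_mono b h hh
    fil_zero := (Submodule.eq_bot_iff _).2 M.fil_zero
    fil_top := (Submodule.eq_top_iff').2 M.fil_top
    rel := fun b =>
      { carrier := {x | M.rel b x.1 x.2}
        add_mem' := fun ha hb => M.rel_add b _ _ _ _ ha hb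
        zero_mem' := M.rel_fil b 0 (M.fil_nil b)
        smul_mem' := fun c x hx => M.rel_smul b c _ _ hx }
    rel_mem := fun b f h hr =>
      have h1 := M.rel_mem b f h hr
      have h2 := (inZ_iff W D i b f).1 h1.1
      ⟨h2.1, h2.2, h1.2⟩
    rel_left := fun b f h1 h2 => M.rel_left b f ((inZ_iff W D i b f).2 ⟨h1, h2⟩)
    rel_right := M.rel_right
    rel_zero := fun b f h hr => (inB_iff W D i b f).symm.trans (M.rel_zero b f h hr)
    rel_bdry := fun b f hf => M.rel_bdry b f ((inB_iff W D i b f).2 hf)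
    rel_fil := M.rel_fil
    rel_F := fun b f h hr => by
      rw [← frobE_eq']
      exact M.rel_F b f h hr
    rel_E := M.rel_E
    rel_N := fun b f h hr => by
      rw [← cut_eq]
      exact M.rel_N b f h hr
    N_low := M.N_low }

end Pool.Agent.Helper60K9.LF
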