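import Pool.Agent.Helper60K9.LF.Base

/-!
# Local factors of motives with abelian strata: definitions
-/

set_option autoImplicit false

open CategoryTheory Polynomial

universe u

namespace Pool.Agent.Helper60K9.LF

open Pool.Agent Pool.Agent.H914 Pool.Agent.H914.VarClass Pool.Agent.H914.VarClass.Obj
  Pool.Agent.H914.WeilCohomology Pool.Agent.Helper7K9.OL Pool.Agent.Helper60K9.EL

/-- The terms of total degree `i` of a spectral sequence with coefficients in the field `K`: for
the term of weight `b`, the cocycles `cyc b` and the coboundaries `bd b`, and the operators `fr b`,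
`cor b`, `mo b` induced by Frobenius, by a correspondence and by the monodromy operator. -/
structure Terms where
  K : Type
  [field : Field K]
  T : Type
  [addT : AddCommGroup T]
  [modT : Module K T]
  cyc : ℕ → T → Prop
  bd : ℕ → T → Prop
  fr : ℕ → T → T
  cor : ℕ → T → T
  mo : ℕ → T → T

attribute [instance] Terms.field Terms.addT Terms.modT

/-- The Galois group of a `p`-adic field, its inertia group, and a geometric Frobenius element. -/
structure Gal where
  Gam : Type
  [grp : Group Gam]
  I : Subgroup Gam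
  normal : I.Normal
  frob : Gam

attribute [instance] Gal.grp

/-- The realisation `V` of degree `i` of a motive `(X, π)` over a `p`-adic field, inside the
cohomology `H = H^i(X')` of an alteration `X'` of `X` with strictly semistable reduction, for
the terms `t` of the weight spectral sequence.
* `act` is the action on `V` of the Galois group; `F` is the action of the geometric Frobenius
  element on `H`; `N` is the monodromy operator; `r` is the order of the residue field.
* `E` is the idempotent (`π`, composed with the projection from `H^i(X')` to `H^i(X)` and the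
  average over the finite group through which inertia acts on the strata) with
  `V^I = {h | N h = 0, E h = h}`.
* `fil` is the weight filtration of `H` (`fil (b + 1)` is the part of weight `≤ b`), and `rel b`
  is the isomorphism of its graded piece of weight `b` with the term of the weight spectral
  sequence: `rel b f h` says that `f` is a cocycle, that `h` is in `fil (b + 1)`, and that the
  classes of `f` and `h` correspond to each other. -/
structure Realisation (t : Terms) (r i : ℕ) (G : Gal) where
  V : Type
  [addV : AddCommGroup V]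
  [modV : Module t.K V]
  [finV : Module.Finite t.K V]
  act : G.Gam → V → V
  act_lin : ∀ g, IsLinearMap t.K (act g)
  act_one : ∀ v, act 1 v = v
  act_mul : ∀ g g' v, act (g * g') v = act g (act g' v)
  H : Type
  [addH : AddCommGroup H]
  [modH : Module t.K H]
  [finH : Module.Finite t.K H]
  inj : V → H
  inj_lin : IsLinearMap t.K inj
  injective : ∀ v, inj v = 0 → v = 0
  F : H → H
  N : H → H
  E : H → H
  F_lin : IsLinearMap t.K F
  N_lin : IsLinearMap t.K N
  E_lin : IsLinearMap t.K E
  inj_frob : ∀ v, inj (act G.frob v) = F (inj v)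
  inv_iff : ∀ h, (∃ v, (∀ g ∈ G.I, act g v = v) ∧ inj v = h) ↔ (N h = 0 ∧ E h = h)
  N_F : ∀ h, N (F h) = r • F (N h)
  E_E : ∀ h, E (E h) = E h
  E_F : ∀ h, E (F h) = F (E h)
  E_N : ∀ h, E (N h) = N (E h)
  fil : ℕ → H → Prop
  fil_nil : ∀ b, fil b 0
  fil_add : ∀ b h h', fil b h → fil b h' → fil b (h + h')
  fil_smul : ∀ b (c : t.K) h, fil b h → fil b (c • h)
  fil_mono : ∀ b h, fil b h → fil (b + 1) h
  fil_zero : ∀ h, fil 0 h → h = 0
  fil_top : ∀ h, fil (2 * i + 1) h
  rel : ℕ → t.T → H → Prop
  rel_add : ∀ b f f' h h', rel b f h → rel b f' h' → rel b (f + f') (h + h')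
  rel_smul : ∀ b (c : t.K) f h, rel b f h → rel b (c • f) (c • h)
  rel_mem : ∀ b f h, rel b f h → t.cyc b f ∧ fil (b + 1) h
  rel_left : ∀ b f, t.cyc b f → ∃ h, rel b f h
  rel_right : ∀ b h, fil (b + 1) h → ∃ f, rel b f h
  rel_zero : ∀ b f h, rel b f h → (t.bd b f ↔ fil b h)
  rel_bdry : ∀ b f, t.bd b f → rel b f 0
  rel_fil : ∀ b h, fil b h → rel b 0 h
  rel_F : ∀ b f h, rel b f h → rel b (t.fr b f) (F h)
  rel_E : ∀ b f h, rel b f h → rel b (t.cor b f) (E h)
  rel_N : ∀ b f h, rel (b + 2) f h → rel b (t.mo (b + 2) f) (N h)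
  N_low : ∀ h, fil 2 h → N h = 0

attribute [instance] Realisation.addV Realisation.modV Realisation.finV Realisation.addH
  Realisation.modH Realisation.finH

/-- The local factor `det (1 - T frob | V^I)` is the polynomial `R`: there are a basis `v` of the
space `V^I` of the invariants of inertia and a matrix `B` of the action of `frob` with respect to
it such that `det (1 - T B)` is `R`. -/
def Realisation.HasFactor {t : Terms} {r i : ℕ} {G : Gal} (M : Realisation t r i G)
    (R : ℚ[X]) : Prop :=
  ∃ (n : ℕ) (v : Fin n → M.V) (B : Matrix (Fin n) (Fin n) t.K), LinearIndependent t.K v ∧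
    (∀ x, x ∈ Submodule.span t.K (Set.range v) ↔ ∀ g ∈ G.I, M.act g x = x) ∧
    (∀ j, M.act G.frob (v j) = ∑ a, B a j • v a) ∧
    ∀ m, B.charpolyRev.coeff m = (R.coeff m : t.K)

variable {k : Type u} [Field k] {𝒱 : VarClass k} {ops : CycleOps 𝒱} {p : ℕ}

section Gen

variable {K V : Type} [Field K] [AddCommGroup V] [Module K V]

/-- The polynomial `P` in the operator `F` maps `x` to zero; `ra c` is the multiplication with the
rational number `c`. -/
def Ann (ra : ℚ → V → V) (F : V → V) (P : ℚ[X]) (x : V) : Prop :=
  P.sum (fun n a => ra a (F^[n] x)) = 0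

/-- The operators on the space `N` which commute with `F` are linear combinations of the operators
`act z`. -/
def Spanned (K : Type) [Field K] [Module K V] (N : V → Prop) (F : V → V) {C : Type*}
    (act : C → V → V) : Prop :=
  ∀ φ : V → V, IsLinearMap K φ → (∀ x, N x → N (φ x)) → (∀ x, N x → φ (F x) = F (φ x)) →
    ∃ (n : ℕ) (c : Fin n → K) (z : Fin n → C), ∀ x, N x → φ x = ∑ j, c j • act (z j) x

/-- The graded algebra is generated in degree one. -/
def Generated (K : Type) [Field K] {B : Type} [Ring B] [Algebra K B] (gr : ℕ → Submodule K B) :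
    Prop := ∀ i, gr i ≤ gr 1 ^ i

/-- The complex roots of the polynomials `P i` have the absolute value `q ^ (i / 2)`. -/
def AreWeilPolynomials (q : ℕ) (P : ℕ → ℚ[X]) : Prop :=
  ∀ i, ∀ z : ℂ, aeval z (P i) = 0 → ‖z‖ ^ 2 = (q : ℝ) ^ i

/-- Hard Lefschetz: `L (n - i)` is a bijection of the elements of degree `i` and those of degree
`2 n - i`. -/
def Hard (gr : ℕ → V → Prop) (n : ℕ) (L : ℕ → V → V) : Prop :=
  ∀ i ≤ n, (∀ a, gr i a → L (n - i) a = 0 → a = 0) ∧
    ∀ b, gr (2 * n - i) b → ∃ a, gr i a ∧ L (n - i) a = b

/-- `Λ` is the Lambda-operator: it kills the primitive elements, and sends `L (j + 1) a` to `L j a`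
for `a` primitive of degree `i ≤ n` and `j + 1 ≤ n - i`. -/
def IsLambda (gr : ℕ → V → Prop) (n : ℕ) (L : ℕ → V → V) (Λ : V → V) : Prop :=
  ∀ i ≤ n, ∀ a, gr i a → L (n - i + 1) a = 0 → Λ a = 0 ∧ ∀ j < n - i, Λ (L (j + 1) a) = L j a

end Gen

section Sum

variable (W : WeilCohomology.{u, 0} ops)

/-- The class `x` has degree `i`. -/
def Deg {X : 𝒱.Obj} (i : ℕ) (x : W.H X) : Prop := x ∈ W.gr X i

/-- The class `x` is zero. -/
def Nul {X : 𝒱.Obj} (x : W.H X) : Prop := x = 0

variable {d : ℕ} (D : Strata 𝒱 d) (A : FrobAction D)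

/-- The theorem of Deligne: the polynomial `P j` with rational coefficients in the geometric
Frobenius is zero on the cohomology of degree `j` of the strata. (The complex roots of `P j` have
absolute value `r ^ (j / 2)`, see `AreWeilPolynomials`.) -/
def FrobKilled (P : ℕ → ℚ[X]) : Prop :=
  ∀ (p j : ℕ) (x : Coh W D p), (∀ s, Deg W j (x s)) →
    Ann (fun c y s => rat W c (y s)) (phiF W D A p) (P j) x

/-- `f` is an element of the term `E_1^(i-b,b)`, of total degree `i` and weight `b`, of the weight
spectral sequence: the sum of the groups `H^(i-p)(-(p+b-i)/2)` of the `(p + 1)`-fold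
intersections over all `p ≤ i` with `|b - i| ≤ p` and `p + b - i` even. -/
def InE (i b : ℕ) (f : Tot W D) : Prop :=
  ∀ p s, Deg W (i - p) (f p s) ∧
    (Nul W (f p s) ∨ (p ≤ i ∧ b ≤ i + p ∧ i ≤ b + p ∧ Even (p + b + i)))

/-- The restriction to the `(p + 1)`-fold intersections with `|b - i| ≤ p`. -/
noncomputable def cut (i b : ℕ) (f : Tot W D) : Tot W D := fun p s =>
  if b ≤ i + p ∧ i ≤ b + p then f p s else 0

/-- The differential `E_1^(i-b,b) → E_1^(i+1-b,b)`: the sum of `ρ` and `γ`, restricted to the
intersections which occur in the target. -/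
noncomputable def dif (i b : ℕ) (f : Tot W D) : Tot W D :=
  cut W D (i + 1) b fun p s => resT W D f p s + gysF W D p (f (p + 1)) s

/-- The cocycles in `E_1^(i-b,b)`. -/
def InZ (i b : ℕ) (f : Tot W D) : Prop := InE W D i b f ∧ ∀ p s, Nul W (dif W D i b f p s)

/-- The boundaries in `E_1^(i-b,b)`. -/
def InB (i b : ℕ) (f : Tot W D) : Prop := ∃ g, InE W D (i - 1) b g ∧ dif W D (i - 1) b g = f

/-- The geometric Frobenius on `E_1^(i-b,b)`; the Tate twist `-(p+b-i)/2` contributes a power of
the order `r` of the residue field. -/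
noncomputable def frobE (r i b : ℕ) (f : Tot W D) : Tot W D := fun p s =>
  scl W r ((p + b - i) / 2) (phiF W D A p (f p) s)

/-- The terms of total degree `i` of the weight spectral sequence of Rapoport and Zink, given by
the strata `D` with the action of Frobenius `A`; the correspondence is given by the cycles `Z b` on
the products of two strata (T. Saito); the monodromy operator is the restriction of the identity to
the intersections which occur in `E_1^(i-b+2,b-2)`. -/
@[reducible] noncomputable def rz (r i : ℕ) (Z : ℕ → CycMat D) : Terms where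
  K := W.K
  T := Tot W D
  cyc := InZ W D i
  bd := InB W D i
  fr := frobE W D A r i
  cor b := (Z b).act W
  mo := cut W D (i + 2)

/-- The standard conjecture D for `X`: a cycle of codimension `j` all of whose intersection
numbers with cycles of the complementary codimension vanish is homologically equivalent to
zero. -/
def HomEqNum (X : 𝒱.Obj) : Prop :=
  ∀ j ≤ X.dim, ∀ z : X.Cycles, X.IsCyc j z →
    (∀ w, X.IsCyc (X.dim - j) w → X.V.degCycle (ops.mul z w) = 0) → Nul W (cls W z)

/-- The product of a class and the `n`-th power of the class of a divisor. -/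
noncomputable def lef {X : 𝒱.Obj} (D : X.Cycles) (n : ℕ) (x : W.H X) : W.H X := cls W D ^ n * x

/-- The action of a correspondence of degree `0`. -/
noncomputable def act0 {X : 𝒱.Obj} (z : {z : (X.prod X).Cycles // (X.prod X).IsCyc X.dim z})
    (x : W.H X) : W.H X := crr W z.1 x

/-- The map `m^*` is the sum of `f^*` and `g^*` in degree `1`. -/
def IsSum {X Y : 𝒱.Obj} (m f g : X ⟶ Y) : Prop :=
  ∀ x, Deg W 1 x → pb W m x = pb W f x + pb W g x

/-- The variety `A` has the known properties of an abelian variety over an algebraic closure of a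
finite field with the addition `m`, where the divisor `D` is ample and invariant under the
Frobenius endomorphism `F`, and `P` is a polynomial with `P(F) = 0` on `H^1(A)`:
* the cohomology is generated by `H^1(A)`, and `m^* x = pr_1^* x + pr_2^* x` for `x` in `H^1(A)`;
* hard Lefschetz holds for `D`, and `F` multiplies the class of `D` by `q`;
* the endomorphisms of `H^1(A)` which commute with `F` are linear combinations of the actions of
  algebraic correspondences of degree `0` (Tate). -/
structure IsAbelian (A : 𝒱.Obj) (F : A ⟶ A) (p e : ℕ) (m : A.prod A ⟶ A) (D : A.Cycles)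
    (P : ℚ[X]) : Prop where
  add : IsSum W m (fst A A) (snd A A)
  gen : Generated W.K (W.gr A)
  divisor : A.IsCyc 1 D
  scaled : pb W F (cls W D) = scl W p e (cls W D)
  hard : Hard (Deg W) A.dim (lef W D)
  kills : ∀ x, Deg W 1 x → Ann (rat W) (pb W F) P x
  tate : Spanned W.K (Deg W 1) (pb W F) (act0 W (X := A))

/-- The transcendental classes of degree `i`: their products with the classes of the cycles of
complementary dimension are zero (so they are orthogonal to the classes of all cycles). -/
def Trans {X : 𝒱.Obj} (i : ℕ) (x : W.H X) : Prop :=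
  Deg W i x ∧ ∀ (q : ℕ) (z : X.Cycles), X.IsCyc q z → i + 2 * q = 2 * X.dim → Nul W (x * cls W z)

/-- The variety `X` over an algebraic closure of a finite field, with an ample divisor `D` invariant
under the Frobenius endomorphism `F`, satisfies the standard conjectures B (the operator `Λ` is
algebraic) and D, the polynomial `P i` in `F` is zero on the transcendental cohomology of degree
`i ≤ dim X`, and the endomorphisms of it which commute with `F` are linear combinations of the
actions of algebraic correspondences of degree `0` (a part of the Tate conjecture for `X × X`).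
These are known for curves, and for K3 surfaces. -/
structure IsRich (X : 𝒱.Obj) (F : X ⟶ X) (p e : ℕ) (D : X.Cycles) (P : ℕ → ℚ[X]) : Prop where
  divisor : X.IsCyc 1 D
  scaled : pb W F (cls W D) = scl W p e (cls W D)
  hard : Hard (Deg W) X.dim (lef W D)
  lambda : ∃ z, (X.prod X).IsCyc (X.dim - 1) z ∧ IsLambda (Deg W) X.dim (lef W D) (crr W z)
  homNum : HomEqNum W X
  kills : ∀ i ≤ X.dim, ∀ x, Trans W i x → Ann (rat W) (pb W F) (P i) x
  tate : ∀ i ≤ X.dim, Spanned W.K (Trans W i) (pb W F) (act0 W (X := X))

end Sum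

/-- The varieties which are products of varieties in `R`. -/
inductive IsProductOf (R : Set 𝒱.Obj) : 𝒱.Obj → Prop
  | base {X : 𝒱.Obj} : X ∈ R → IsProductOf R X
  | prod {X Y : 𝒱.Obj} : IsProductOf R X → IsProductOf R Y → IsProductOf R (X.prod Y)

/-- The `ℓ`-adic cohomology theories `W ℓ` (`ℓ ≠ p`) for the varieties in `𝒱`, over an algebraic
closure of the field with `p` elements, and the Frobenius endomorphism `Fr X` of a model of `X` over
the field with `p ^ e X` elements. Each morphism, and each cycle, is defined over a finite field.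
(The theories `W ℓ` for the other `ℓ` play no role, they can be taken equal to one of these.) -/
structure Adic (ops : CycleOps 𝒱) (p : ℕ) where
  W : ℕ → WeilCohomology.{u, 0} ops
  coeff : ∀ (ℓ : ℕ) [Fact ℓ.Prime], ℓ ≠ p → Nonempty ((W ℓ).K ≃+* ℚ_[ℓ])
  Fr : ∀ X : 𝒱.Obj, X ⟶ X
  e : 𝒱.Obj → ℕ
  e_pos : ∀ X, 0 < e X
  comm : ∀ (X Y : 𝒱.Obj) (f : X ⟶ Y), ∃ a b, 0 < a ∧ a * e X = b * e Y ∧
    (· ≫ Fr X)^[a] (𝟙 X) ≫ f = f ≫ (· ≫ Fr Y)^[b] (𝟙 Y)
  cyc : ∀ (ℓ : ℕ) (X : 𝒱.Obj) (j : ℕ) (z : X.Cycles), X.IsCyc j z → ∃ s, 0 < s ∧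
    (pb (W ℓ) (Fr X))^[s] (cls (W ℓ) z) = scl (W ℓ) p (e X * s * j) (cls (W ℓ) z)
  deg : ∀ (ℓ : ℕ) (X : 𝒱.Obj) (c), Deg (X := X) (W ℓ) (2 * X.dim) c →
    pb (W ℓ) (Fr X) c = scl (W ℓ) p (e X * X.dim) c

/-- The variety `V` is an abelian variety and `P 1` in Frobenius is zero on `H^1(V)`, or it is a
variety with many correspondences (for example a curve or a K3 surface) and `P i` in Frobenius is
zero on the transcendental cohomology of degree `i ≤ dim V`. -/
def Adic.IsGood (S : Adic ops p) (ℓ : ℕ) (V : 𝒱.Obj) (P : ℕ → ℚ[X]) : Prop :=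
  (∃ m D, IsAbelian (S.W ℓ) V (S.Fr V) p (S.e V) m D (P 1)) ∨
    ∃ D, IsRich (S.W ℓ) V (S.Fr V) p (S.e V) D P

/-- A motive over a `p`-adic field: the strata `D` over the algebraic closure `k` of the residue
field of a strictly semistable alteration, the Frobenius of the residue field (of order `r`),
Deligne's polynomials `P j` for the cohomology of degree `j` of the strata, the cycles `Z i b` on
the products of two strata by which the projector acts (degree `i`, weight `b`; T. Saito), the
Galois group `G`, and the `ℓ`-adic realisations of degree `i` for all primes `ℓ ≠ p`. -/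
structure MotiveAt (S : Adic ops p) where
  d : ℕ
  D : Strata 𝒱 d
  A : FrobAction D
  r : ℕ
  two_le : 2 ≤ r
  P : ℕ → ℚ[X]
  weil : AreWeilPolynomials r P
  kills : ∀ ℓ, ℓ.Prime → ℓ ≠ p → FrobKilled (S.W ℓ) D A P
  Z : ℕ → ℕ → CycMat D
  G : Gal
  real : ∀ ℓ, ℓ.Prime → ℓ ≠ p → ∀ i, Realisation (rz (S.W ℓ) D A r i (Z i)) r i G

variable {S : Adic ops p}

/-- For all primes `ℓ ≠ p` in `𝓛` and all `i`, the local factor `det (1 - T frob | V^I)` of the
`ℓ`-adic realisation of degree `i` has rational coefficients, and does not depend on `ℓ`. -/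
def MotiveAt.FactorsAgree (M : MotiveAt S) (𝓛 : Set ℕ) : Prop :=
  ∃ R : ℕ → ℚ[X], ∀ ℓ ∈ 𝓛, ∀ (h : ℓ.Prime) (h' : ℓ ≠ p) (i : ℕ), (M.real ℓ h h' i).HasFactor (R i)

/-- The strata are dominated by products of members of `R`: every connected component `Y` of an
intersection of components of the closed fibre has a morphism `g : U ⟶ Y` from a product `U` of
members of `R` such that `g^*` is injective on the `ℓ`-adic cohomology for all primes `ℓ ≠ p` (for
example `g` surjective). -/
def MotiveAt.StrataIn (M : MotiveAt S) (R : Set 𝒱.Obj) : Prop :=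
  ∀ (q : ℕ) (s : M.D.S q), ∃ (U : 𝒱.Obj) (g : U ⟶ M.D.Y q s), IsProductOf R U ∧
    ∀ ℓ : ℕ, ℓ.Prime → ℓ ≠ p → ∀ x, Nul (S.W ℓ) (pb (S.W ℓ) g x) → Nul (S.W ℓ) x

/-- The conjecture D (homological and numerical equivalence coincide) for the products `U` of
members of `𝒴`, for the primes `ℓ ≠ p` in `𝓛`. -/
def DFor (S : Adic ops p) (𝒴 : Set 𝒱.Obj) (𝓛 : Set ℕ) : Prop :=
  ∀ ℓ ∈ 𝓛, ℓ.Prime → ℓ ≠ p → ∀ U, IsProductOf 𝒴 U → HomEqNum (S.W ℓ) U

end Pool.Agent.Helper60K9.LF
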