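import Pool.Agent.Helper60K9.LF.Adic

/-!
# The local factor in a basis
-/

set_option autoImplicit false

open Polynomial

namespace Pool.Agent.Helper60K9.LF

theorem hasFactor_of {t : Terms} {r i : ℕ} {G : Gal} (M : Realisation t r i G)
    (ρ : G.Gam →* Module.End t.K M.V) (hρ : ∀ g v, ρ g v = M.act g v)
    (inv : Submodule t.K M.V) (hinv : ∀ v, v ∈ inv ↔ ∀ g ∈ G.I, M.act g v = v)
    (hF : ∀ v ∈ inv, ρ G.frob v ∈ inv) (R : ℚ[X])
    (h : ∀ m, ((ρ G.frob).restrict hF).charpoly.reverse.coeff m = (R.coeff m : t.K)) :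
    M.HasFactor R := by
  classical
  let b := Module.finBasis t.K inv
  let B := LinearMap.toMatrix b b ((ρ G.frob).restrict hF)
  refine ⟨_, fun j => (b j : M.V), B, ?_, ?_, ?_, ?_⟩
  · exact b.linearIndependent.map' inv.subtype (Submodule.ker_subtype _)
  · intro x
    rw [← hinv]
    have h1 : Submodule.span t.K (Set.range fun j => (b j : M.V)) = inv := by
      have h2 : (Set.range fun j => (b j : M.V)) = inv.subtype '' Set.range b := by
        rw [← Set.range_comp]
        rfl
      rw [h2, Submodule.span_image, b.span_eq, Submodule.map_top, Submodule.range_subtype]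
    rw [h1]
  · intro j
    rw [← hρ]
    have h1 := b.sum_repr ((ρ G.frob).restrict hF (b j))
    have h2 := congrArg (Subtype.val) h1
    rw [LinearMap.coe_restrict_apply] at h2
    rw [← h2, AddSubmonoidClass.coe_finsetSum]
    refine Finset.sum_congr rfl fun a _ => ?_
    rw [Submodule.coe_smul]
    exact congrArg (· • (b a : M.V)) (LinearMap.toMatrix_apply b b _ a j).symm
  · intro m
    rw [← h m, ← LinearMap.charpoly_toMatrix _ b, ← Matrix.reverse_charpoly]

end Pool.Agent.Helper60K9.LF
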