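import Pool.Agent.Helper60K9.LF.Ab

/-!
# Varieties with many correspondences: the comparison of the definitions
-/

set_option autoImplicit false

open CategoryTheory Polynomial

universe u

namespace Pool.Agent.Helper60K9.LF

open Pool.Agent Pool.Agent.H914 Pool.Agent.H914.VarClass Pool.Agent.H914.VarClass.Obj
  Pool.Agent.H914.WeilCohomology Pool.Agent.Helper7K9.OL Pool.Agent.Helper11K9.Dens
  Pool.Agent.Helper60K9.EL

variable {k : Type u} [Field k] {𝒱 : VarClass k} {ops : CycleOps 𝒱} {p : ℕ}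

lemma trans_iff {W : WeilCohomology.{u, 0} ops} {X : 𝒱.Obj} (i : ℕ) (x : W.H X) :
    Trans W i x ↔ x ∈ transDeg W X i := by
  unfold transDeg H914.transcendental orthCompl
  rw [Submodule.mem_inf, Submodule.mem_iInf]
  constructor
  · rintro ⟨hx, h⟩
    refine ⟨hx, fun c => ?_⟩
    rw [Submodule.mem_iInf]
    intro hc
    obtain ⟨q, z, hz, rfl⟩ := Set.mem_iUnion.1 hc
    show W.tr X (x * W.cl X z) = 0
    by_cases hq : i + 2 * q = 2 * X.dim
    · have h1 : x * W.cl X z = 0 := h q z hz hq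
      rw [h1, map_zero]
    · exact W.tr_eq_zero (W.mul_mem hx (W.cl_mem hz)) hq
  · rintro ⟨hx, h⟩
    refine ⟨hx, fun q z hz hq => ?_⟩
    have h1 := h (W.cl X z)
    rw [Submodule.mem_iInf] at h1
    have h2 : W.tr X (x * W.cl X z) = 0 := h1 (Set.mem_iUnion.2 ⟨q, z, hz, rfl⟩)
    refine eq_zero_of_tr ?_ h2
    rw [← hq]
    exact W.mul_mem hx (W.cl_mem hz)

lemma lambda_conv {W : WeilCohomology.{u, 0} ops} {X : 𝒱.Obj} {D : X.Cycles}
    (h : ∃ z, (X.prod X).IsCyc (X.dim - 1) z ∧ IsLambda (Deg W) X.dim (lef W D) (crr W z)) :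
    LefschetzB W X D := by
  obtain ⟨z, hz, h1⟩ := h
  refine ⟨z, hz, fun i hi a ha h0 => ?_⟩
  have e : ∀ (n : ℕ) (a : W.H X), (LinearMap.mulLeft W.K (W.cl X D) ^ n) a = lef W D n a := by
    intro n a
    rw [LinearMap.pow_mulLeft]
    rfl
  obtain ⟨h2, h3⟩ := h1 i hi a ha (by rw [← e]; exact h0)
  refine ⟨h2, fun j hj => ?_⟩
  rw [e, e]
  exact h3 j hj

theorem rich_conv (S : Adic ops p) (hp : 0 < p) (ℓ : ℕ) {V : 𝒱.Obj}
    {D : V.Cycles} {P : ℕ → ℚ[X]}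
    (h : IsRich (S.W ℓ) V (S.Fr V) p (S.e V) D P) :
    IsRichOverFinite (S.sys hp ℓ) V D ∧ ∀ i ≤ V.dim,
      KillsOn (R908.frobAll (S.sys hp ℓ) V) (transDeg (S.W ℓ) V i) (P i) := by
  refine ⟨⟨h.divisor, ?_, hard_conv h.hard, lambda_conv h.lambda, h.homNum, fun i hi => ?_⟩,
    fun i hi x hx => (ann_iff _ _ _).1 (h.kills i hi x ((trans_iff i x).2 hx))⟩
  · show (S.W ℓ).map (S.Fr V) ((S.W ℓ).cl V D) = ((p ^ S.e V : ℕ) : (S.W ℓ).K) • _
    have := h.scaled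
    rw [scl_eq, ← Nat.cast_pow] at this
    exact this
  · exact spanned_conv _ (trans_iff i) (h.tate i hi)

theorem good_conv (S : Adic ops p) (hp : 0 < p) (ℓ : ℕ) {V : 𝒱.Obj} {P : ℕ → ℚ[X]}
    (hP : ∀ i, Squarefree (P i)) (h : S.IsGood ℓ V P) :
    IsAdmissible ((S.toSystem hp).Φ ℓ) V P := by
  refine ⟨hP, ?_⟩
  rcases h with ⟨m, D, h⟩ | ⟨D, h⟩
  · exact Or.inl ⟨m, D, abelian_conv S hp ℓ (hP 1) h⟩
  · exact Or.inr ⟨D, rich_conv S hp ℓ h⟩

end Pool.Agent.Helper60K9.LF
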