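import Pool.Agent.Helper60K9.LF.Conv
import Pool.Agent.Helper60K9.LF.Factor
import Pool.Agent.Helper60K9.LF.Rich
import Pool.Agent.Helper60K9.EL.Core4
import Pool.Agent.Helper60K9.EL.Opa
import Pool.Agent.Helper60K9.EL.Mul
import Pool.Agent.Helper60K9.EL.Reg
import Pool.Agent.Helper60K9.EL.Trd
import Pool.Agent.Helper60K9.EL.Chr
import Pool.Agent.Helper60K9.EL.Wts
import Pool.Agent.Helper60K9.EL.Add
import Pool.Agent.Helper60K9.EL.Pul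
import Pool.Agent.Helper60K9.EL.Mna
import Pool.Agent.Helper60K9.EL.Trc
import Pool.Agent.Helper60K9.EL.Wte
import Pool.Agent.Helper60K9.EL.E1p
import Pool.Agent.Helper60K9.EL.Ndg
import Pool.Agent.Helper86K9.EL.Fra
import Pool.Agent.Helper11K9.Dens.Main

/-!
# The theorem
-/

set_option autoImplicit false

open CategoryTheory Polynomial

universe u

namespace Pool.Agent.Helper60K9.LF

open Pool.Agent Pool.Agent.H914 Pool.Agent.H914.VarClass Pool.Agent.H914.VarClass.Obj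
  Pool.Agent.H914.WeilCohomology Pool.Agent.Helper7K9.OL Pool.Agent.Helper11K9.Dens
  Pool.Agent.Helper60K9.EL

variable {k : Type u} [Field k] {𝒱 : VarClass k} {ops : CycleOps 𝒱}

theorem main_general {p : ℕ} (S : Adic ops p) (M : LF.MotiveAt S) (𝓛 : Set ℕ)
    (h : ∀ ℓ ∈ 𝓛, ℓ.Prime → ℓ ≠ p → ∀ (q q' : ℕ) (s : M.D.S q) (s' : M.D.S q'),
      HomEqNum (S.W ℓ) ((M.D.Y q s).prod (M.D.Y q' s'))) : M.FactorsAgree 𝓛 := by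
  haveI := M.G.normal
  have fra' : S_FRA.{u} := Pool.Agent.Helper86K9.EL.fra rsm pul
  have key := fun i : ℕ => core one mul rsm par_ trc (ndg par_) reg trd ppk ppi chr wts add rel
    dfa mna fra' (e1p crt fra' mul one rsm) wte fin opa M.D M.A
    (Λ := {ℓ : ℕ // ℓ ∈ 𝓛 ∧ ℓ.Prime ∧ ℓ ≠ p}) (fun ℓ => S.W ℓ.1) M.r M.P M.two_le M.weil
    (fun ℓ => isWeil_of (M.kills ℓ.1 ℓ.2.2.1 ℓ.2.2.2))
    (fun ℓ x y => h ℓ.1 ℓ.2.1 ℓ.2.2.1 ℓ.2.2.2 x.1 y.1 x.2 y.2) (M.Z i) M.G.Gam M.G.I M.G.frob i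
    (fun ℓ => LF.toReal (M.real ℓ.1 ℓ.2.2.1 ℓ.2.2.2 i))
  choose R hR using key
  refine ⟨R, fun ℓ hℓ h1 h2 i => ?_⟩
  have e := hR i ⟨ℓ, hℓ, h1, h2⟩
  refine hasFactor_of (M.real ℓ h1 h2 i) (LF.toReal (M.real ℓ h1 h2 i)).ρ (fun _ _ => rfl)
    (LF.toReal (M.real ℓ h1 h2 i)).inv (fun v => Iff.rfl)
    (LF.toReal (M.real ℓ h1 h2 i)).frob_inv (R i) fun m => ?_
  have e2 := congrArg (fun f => Polynomial.coeff f m) e
  refine e2.trans ?_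
  show ((R i).map (algebraMap ℚ (S.W ℓ).K)).coeff m = _
  rw [Polynomial.coeff_map, eq_ratCast]

theorem strata_homEqNum {p : ℕ} (S : Adic ops p) (M : LF.MotiveAt S) (R : Set 𝒱.Obj)
    (𝓛 : Set ℕ) (hM : M.StrataIn R)
    (hR : ∀ ℓ ∈ 𝓛, ℓ.Prime → ℓ ≠ p → StandardFor (S.W ℓ) R) :
    ∀ ℓ ∈ 𝓛, ℓ.Prime → ℓ ≠ p → ∀ (q q' : ℕ) (s : M.D.S q) (s' : M.D.S q'),
      HomEqNum (S.W ℓ) ((M.D.Y q s).prod (M.D.Y q' s')) := by
  intro ℓ hℓ h1 h2 q q' s s'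
  obtain ⟨U, g, hU, hg⟩ := hM q s
  obtain ⟨U', g', hU', hg'⟩ := hM q' s'
  exact dom (S.W ℓ) R (hR ℓ hℓ h1 h2) _ _ _ _ g g' (isProductOf_iff.1 hU)
    (isProductOf_iff.1 hU')
    ((injective_iff_map_eq_zero _).2 (hg ℓ h1 h2))
    ((injective_iff_map_eq_zero _).2 (hg' ℓ h1 h2))

theorem main_density {p : ℕ} [Fact p.Prime] (S : Adic ops p) {J : Type} [Fintype J]
    (V : J → 𝒱.Obj) (P : J → ℕ → ℚ[X])
    (hP : ∀ j, LF.AreWeilPolynomials (p ^ S.e (V j)) (P j)) (hsq : ∀ j i, Squarefree (P j i))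
    (hV : ∀ ℓ : ℕ, ℓ.Prime → ℓ ≠ p → ∀ j, S.IsGood ℓ (V j) (P j)) :
    ∃ 𝓛 : Set ℕ, HasLowerDensity 𝓛 ((1 / 2) ^ pairNumber (famPoly (fun j => (V j).dim) P)) ∧
      ∀ (𝒴 : Set 𝒱.Obj) (𝓛' : Set ℕ), LF.DFor S 𝒴 𝓛' → ∀ M : LF.MotiveAt S,
        (M.StrataIn (Set.range V ∪ 𝒴) → M.FactorsAgree (𝓛 ∩ 𝓛')) ∧
        (M.StrataIn 𝒴 → M.FactorsAgree 𝓛') := by
  have hp : 0 < p := (Fact.out : p.Prime).pos
  refine ⟨_, main_all (S.toSystem hp) hP (fun ℓ _ hℓ j => good_conv S hp ℓ (hsq j)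
    (hV ℓ Fact.out hℓ j)), fun 𝒴 𝓛' h𝒴 M => ⟨fun hM => ?_, fun hM => ?_⟩⟩
  · exact main_general S M _ (strata_homEqNum S M _ _ hM fun ℓ hℓ h1 h2 =>
      hℓ.1 𝒴 fun U hU => h𝒴 ℓ hℓ.2 h1 h2 U (isProductOf_iff.2 hU))
  · exact main_general S M _ (strata_homEqNum S M _ _ hM fun ℓ hℓ h1 h2 =>
      standard_of_products fun U hU => h𝒴 ℓ hℓ h1 h2 U (isProductOf_iff.2 hU))

end Pool.Agent.Helper60K9.LF
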